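import Mathlib

set_option autoImplicit false

/-!
Free groups are conjugacy separable.
-/

namespace Pool.Agent.H23CS

open FreeGroup (mk of)

universe u

/-- the sum of `φ` along a word -/
def sumw {X : Type u} {A : Type*} [AddCommGroup A] (φ : X → A) : List (X × Bool) → A
  | [] => 0
  | (x, b) :: l => (if b then φ x else -φ x) + sumw φ l

lemma sumw_append {X : Type u} {A : Type*} [AddCommGroup A] (φ : X → A) (l l' : List (X × Bool)) :
    sumw φ (l ++ l') = sumw φ l + sumw φ l' := by
  induction l with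
  | nil => simp [sumw]
  | cons a l ih => obtain ⟨x, b⟩ := a; simp [sumw, ih, add_assoc]

lemma sumw_map {X : Type u} {A B : Type*} [AddCommGroup A] [AddCommGroup B] (f : A →+ B)
    (φ : X → A) (l : List (X × Bool)) : sumw (fun x => f (φ x)) l = f (sumw φ l) := by
  induction l with
  | nil => simp [sumw]
  | cons a l ih => obtain ⟨x, b⟩ := a; cases b <;> simp [sumw, ih]

lemma mk_cons_true {X : Type u} (x : X) (l : List (X × Bool)) :
    (mk ((x, true) :: l) : FreeGroup X) = of x * mk l := rfl

lemma mk_cons_false {X : Type u} (x : X) (l : List (X × Bool)) :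
    (mk ((x, false) :: l) : FreeGroup X) = (of x)⁻¹ * mk l := rfl

section rewriting

variable {X : Type u} [DecidableEq X] {p : ℕ} (x0 : X) (φ : X → ZMod p)

/-- the letter of an edge; the edges of the tree are dropped -/
def E (x : X) (i : ZMod p) (b : Bool) : List ((X × ZMod p) × Bool) :=
  if x = x0 ∧ i ≠ -1 then [] else [((x, i), b)]

/-- the word of the path of `l` from `i` in the cover -/
def c : List (X × Bool) → ZMod p → List ((X × ZMod p) × Bool)
  | [], _ => []
  | (x, true) :: l, i => E x0 x i true ++ c l (i + φ x)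
  | (x, false) :: l, i => E x0 x (i - φ x) false ++ c l (i - φ x)

lemma E_length (x : X) (i : ZMod p) (b : Bool) : (E x0 x i b).length ≤ 1 := by
  unfold E
  split_ifs <;> simp

lemma c_length (l : List (X × Bool)) (i : ZMod p) : (c x0 φ l i).length ≤ l.length := by
  induction l generalizing i with
  | nil => simp [c]
  | cons a l ih =>
    obtain ⟨x, b⟩ := a
    cases b
    · simp only [c, List.length_append, List.length_cons]
      have := ih (i - φ x)
      have := E_length x0 x (i - φ x) false
      omega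
    · simp only [c, List.length_append, List.length_cons]
      have := ih (i + φ x)
      have := E_length x0 x i true
      omega

lemma c_append (l l' : List (X × Bool)) (i : ZMod p) :
    c x0 φ (l ++ l') i = c x0 φ l i ++ c x0 φ l' (i + sumw φ l) := by
  induction l generalizing i with
  | nil => simp [c, sumw]
  | cons a l ih =>
    obtain ⟨x, b⟩ := a
    cases b
    · simp only [List.cons_append, c, ih, List.append_assoc, sumw]
      congr 3
      simp; ring
    · simp only [List.cons_append, c, ih, List.append_assoc, sumw]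
      congr 3
      simp; ring

lemma c_strict (hp : 1 < p) (hφ : φ x0 = 1) (l : List (X × Bool)) (b : Bool) (h : (x0, b) ∈ l) :
    ∃ i, (c x0 φ l i).length < l.length := by
  have : Fact (1 < p) := ⟨hp⟩
  have hE : ∀ b, E (p := p) x0 x0 0 b = [] := by
    intro b
    unfold E
    rw [if_pos]
    refine ⟨rfl, ?_⟩
    intro h
    have : (1 : ZMod p) = 0 := by linear_combination h
    exact one_ne_zero this
  induction l with
  | nil => simp at h
  | cons a l ih =>
    obtain ⟨x, b'⟩ := a
    by_cases hx : (x0, b) ∈ l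
    · obtain ⟨i, hi⟩ := ih hx
      cases b'
      · refine ⟨i + φ x, ?_⟩
        simp only [c, List.length_append, List.length_cons]
        have := E_length x0 x (i + φ x - φ x) false
        rw [add_sub_cancel_right] at this ⊢
        omega
      · refine ⟨i - φ x, ?_⟩
        simp only [c, List.length_append, List.length_cons]
        have := E_length x0 x (i - φ x) true
        rw [sub_add_cancel]
        omega
    · rw [List.mem_cons] at h
      have h1 := h.resolve_right hx
      have hx0 : x = x0 := by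
        simp only [Prod.mk.injEq] at h1
        exact h1.1.symm
      subst hx0
      cases b'
      · refine ⟨1, ?_⟩
        simp only [c, List.length_append, List.length_cons, hφ, sub_self, hE, List.length_nil]
        have := c_length x φ l 0
        omega
      · refine ⟨0, ?_⟩
        simp only [c, List.length_append, List.length_cons, hφ, hE, List.length_nil]
        have := c_length x φ l (0 + 1)
        omega

/-- the powers of `x0` -/
def s (i : ZMod p) : FreeGroup X := (of x0) ^ i.val

/-- the inclusion of the cover -/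
def rho : FreeGroup (X × ZMod p) →* FreeGroup X :=
  FreeGroup.lift fun y => s x0 y.2 * of y.1 * (s x0 (y.2 + φ y.1))⁻¹

lemma rho_E (hp : 1 < p) (hφ : φ x0 = 1) (x : X) (i : ZMod p) :
    rho x0 φ (mk (E x0 x i true)) = s x0 i * of x * (s x0 (i + φ x))⁻¹ := by
  have : NeZero p := ⟨by omega⟩
  have : Fact (1 < p) := ⟨hp⟩
  unfold E
  split_ifs with h
  · obtain ⟨rfl, h⟩ := h
    have h1 : i.val + 1 < p := by
      have h2 := ZMod.val_lt i
      rcases Nat.lt_or_ge (i.val + 1) p with h3 | h3
      · exact h3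
      · exfalso
        have h4 : i.val + 1 = p := by omega
        apply h
        have h5 : ((i.val + 1 : ℕ) : ZMod p) = 0 := by rw [h4]; simp
        have h6 : ((i.val : ℕ) : ZMod p) = i := ZMod.natCast_zmod_val i
        push_cast at h5
        rw [h6] at h5
        linear_combination h5
    have h7 : (i + 1).val = i.val + 1 := by
      have := ZMod.val_add_of_lt (a := i) (b := (1 : ZMod p)) (by rw [ZMod.val_one]; exact h1)
      rw [this, ZMod.val_one]
    rw [hφ]
    unfold s
    rw [h7, pow_succ]
    simp [← FreeGroup.one_eq_mk]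
  · change rho x0 φ (of (x, i)) = _
    simp [rho]

lemma rho_E' (hp : 1 < p) (hφ : φ x0 = 1) (x : X) (i : ZMod p) :
    rho x0 φ (mk (E x0 x i false)) = (s x0 i * of x * (s x0 (i + φ x))⁻¹)⁻¹ := by
  rw [← rho_E x0 φ hp hφ, ← map_inv]
  congr 1
  unfold E
  split_ifs <;> rfl

lemma rho_c (hp : 1 < p) (hφ : φ x0 = 1) (l : List (X × Bool)) (i : ZMod p) :
    rho x0 φ (mk (c x0 φ l i)) = s x0 i * mk l * (s x0 (i + sumw φ l))⁻¹ := by
  induction l generalizing i with
  | nil => simp [c, sumw, ← FreeGroup.one_eq_mk]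
  | cons a l ih =>
    obtain ⟨x, b⟩ := a
    cases b
    · simp only [c, sumw]
      rw [← FreeGroup.mul_mk, map_mul, ih, rho_E' x0 φ hp hφ, mk_cons_false, sub_add_cancel]
      have : i + ((if false = true then φ x else -φ x) + sumw φ l) = i - φ x + sumw φ l := by
        simp; ring
      rw [this]
      group
    · simp only [c, sumw, ↓reduceIte]
      rw [← FreeGroup.mul_mk, map_mul, ih, rho_E x0 φ hp hφ, mk_cons_true,
        ← add_assoc i (φ x) (sumw φ l)]
      group

variable {Q : Type*} [Group Q] (ψ : FreeGroup (X × ZMod p) →* Q)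

/-- the action of a letter -/
def perm (x : X) : Equiv.Perm (ZMod p × Q) where
  toFun a := (a.1 - φ x, ψ (mk (E x0 x (a.1 - φ x) true)) * a.2)
  invFun a := (a.1 + φ x, (ψ (mk (E x0 x a.1 true)))⁻¹ * a.2)
  left_inv a := by
    ext
    · simp
    · simp
  right_inv a := by
    ext
    · simp
    · simp

/-- the action of the free group -/
def act : FreeGroup X →* Equiv.Perm (ZMod p × Q) := FreeGroup.lift (perm x0 φ ψ)

lemma act_mk (l : List (X × Bool)) (j : ZMod p) (h : Q) :
    act x0 φ ψ (mk l) (j, h) = (j - sumw φ l, ψ (mk (c x0 φ l (j - sumw φ l))) * h) := by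
  induction l with
  | nil => simp [sumw, c, ← FreeGroup.one_eq_mk]
  | cons a l ih =>
    obtain ⟨x, b⟩ := a
    cases b
    · rw [mk_cons_false, map_mul, Equiv.Perm.mul_apply, ih, map_inv]
      have h1 : act x0 φ ψ (of x) = perm x0 φ ψ x := by simp [act]
      rw [h1]
      change (j - sumw φ l + φ x, (ψ (mk (E x0 x (j - sumw φ l) true)))⁻¹ *
        (ψ (mk (c x0 φ l (j - sumw φ l))) * h)) = _
      have h2 : j - sumw φ ((x, false) :: l) = j - sumw φ l + φ x := by
        simp [sumw]; ring
      rw [h2]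
      simp only [c]
      rw [← FreeGroup.mul_mk, map_mul, add_sub_cancel_right, mul_assoc]
      have h3 : (mk (E x0 x (j - sumw φ l) false) : FreeGroup (X × ZMod p)) =
          (mk (E x0 x (j - sumw φ l) true))⁻¹ := by
        unfold E
        split_ifs <;> rfl
      rw [h3, map_inv]
    · rw [mk_cons_true, map_mul, Equiv.Perm.mul_apply, ih]
      have h1 : act x0 φ ψ (of x) = perm x0 φ ψ x := by simp [act]
      rw [h1]
      change (j - sumw φ l - φ x, ψ (mk (E x0 x (j - sumw φ l - φ x) true)) *
        (ψ (mk (c x0 φ l (j - sumw φ l))) * h)) = _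
      have h2 : j - sumw φ ((x, true) :: l) = j - sumw φ l - φ x := by
        simp [sumw]; ring
      rw [h2]
      simp only [c]
      rw [← FreeGroup.mul_mk, map_mul, sub_add_cancel, mul_assoc]

end rewriting

/-- the statement -/
def Sep {X : Type u} (lu lv : List (X × Bool)) : Prop :=
  ∃ (Q : Type) (_ : Group Q) (_ : Finite Q) (ψ : FreeGroup X →* Q),
    ¬ IsConj (ψ (mk lu)) (ψ (mk lv))

lemma Sep.symm {X : Type u} {lu lv : List (X × Bool)} (h : Sep lu lv) : Sep lv lu := by
  obtain ⟨Q, i1, i2, ψ, h⟩ := h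
  exact ⟨Q, i1, i2, ψ, fun h' => h h'.symm⟩

lemma step {X : Type u} [DecidableEq X] {p : ℕ} (hp : 1 < p) (x0 : X) (φ : X → ZMod p)
    (hφ : φ x0 = 1) (lu lv : List (X × Bool)) (hu : sumw φ lu = 0) (hv : sumw φ lv = 0)
    (b : Bool) (hb : (x0, b) ∈ lu) (hc : ¬ IsConj (mk lu : FreeGroup X) (mk lv))
    (ih : ∀ lu' lv' : List ((X × ZMod p) × Bool), lu'.length + lv'.length < lu.length + lv.length →
      ¬ IsConj (mk lu' : FreeGroup (X × ZMod p)) (mk lv') → Sep lu' lv') : Sep lu lv := by
  have : NeZero p := ⟨by omega⟩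
  obtain ⟨i0, hi0⟩ := c_strict x0 φ hp hφ lu b hb
  have key : ∀ j : ZMod p, Sep (c x0 φ lu i0) (c x0 φ lv j) := by
    intro j
    apply ih
    · have := c_length x0 φ lv j
      omega
    · intro h
      apply hc
      have h1 := (rho x0 φ).map_isConj h
      rw [rho_c x0 φ hp hφ, rho_c x0 φ hp hφ, hu, hv, add_zero, add_zero] at h1
      rw [isConj_iff] at h1 ⊢
      obtain ⟨g, hg⟩ := h1
      refine ⟨(s x0 j)⁻¹ * g * s x0 i0, ?_⟩
      have : (mk lv : FreeGroup X) = (s x0 j)⁻¹ * (s x0 j * mk lv * (s x0 j)⁻¹) * s x0 j := by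
        group
      rw [this, ← hg]
      group
  choose Q i1 i2 ψ hψ using key
  let Ψ : FreeGroup (X × ZMod p) →* (∀ j, Q j) := MonoidHom.pi ψ
  have hΨ : ∀ j, ¬ IsConj (Ψ (mk (c x0 φ lu i0))) (Ψ (mk (c x0 φ lv j))) := by
    intro j h
    exact hψ j ((Pi.evalMonoidHom Q j).map_isConj h)
  let π := act x0 φ Ψ
  have hfin : Finite (ZMod p × ∀ j, Q j) := inferInstance
  refine ⟨π.range, inferInstance, inferInstance, π.rangeRestrict, ?_⟩
  intro h
  rw [isConj_iff] at h
  obtain ⟨⟨_, g, rfl⟩, hg⟩ := h
  have hg1 : π g * π (mk lu) = π (mk lv) * π g := by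
    have := congrArg Subtype.val hg
    simp only [Subgroup.coe_mul, Subgroup.coe_inv, MonoidHom.coe_rangeRestrict] at this
    rw [← this]
    group
  obtain ⟨lg, rfl⟩ : ∃ lg, g = mk lg := ⟨g.toWord, (FreeGroup.mk_toWord).symm⟩
  rw [← map_mul, ← map_mul, FreeGroup.mul_mk, FreeGroup.mul_mk] at hg1
  have h2 := congrArg (fun f : Equiv.Perm _ => f (i0, 1)) hg1
  simp only [π, act_mk, sumw_append, hu, hv, add_zero, zero_add, c_append, mul_one,
    sub_add_cancel] at h2
  have h3 := congrArg Prod.snd h2
  simp only [← FreeGroup.mul_mk, map_mul] at h3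
  apply hΨ (i0 - sumw φ lg)
  rw [isConj_iff]
  refine ⟨Ψ (mk (c x0 φ lg (i0 - sumw φ lg))), ?_⟩
  rw [h3]
  group

/-- the exponent sum -/
def ex {X : Type u} [DecidableEq X] (x : X) (l : List (X × Bool)) : ℤ :=
  sumw (fun y => if y = x then 1 else 0) l

lemma sep_of_ex {X : Type u} [DecidableEq X] (x : X) (lu lv : List (X × Bool))
    (h : ex x lu ≠ ex x lv) : Sep lu lv := by
  let m : ℕ := (ex x lu - ex x lv).natAbs + 1
  have : NeZero m := ⟨by omega⟩
  let f : FreeGroup X →* Multiplicative (ZMod m) :=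
    FreeGroup.lift fun y => Multiplicative.ofAdd (if y = x then (1 : ZMod m) else 0)
  have hf : ∀ l, f (mk l) = Multiplicative.ofAdd ((ex x l : ℤ) : ZMod m) := by
    intro l
    induction l with
    | nil => simp [ex, sumw, ← FreeGroup.one_eq_mk]
    | cons a l ih =>
      obtain ⟨y, b⟩ := a
      cases b
      · rw [mk_cons_false, map_mul, ih, map_inv]
        simp only [f, FreeGroup.lift_apply_of, ex, sumw, Bool.false_eq_true, ↓reduceIte]
        rw [← ofAdd_neg, ← ofAdd_add]
        split_ifs <;> simp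
      · rw [mk_cons_true, map_mul, ih]
        simp only [f, FreeGroup.lift_apply_of, ex, sumw, ↓reduceIte]
        rw [← ofAdd_add]
        split_ifs <;> simp
  refine ⟨Multiplicative (ZMod m), inferInstance, inferInstance, f, ?_⟩
  rw [isConj_iff_eq, hf, hf]
  intro h1
  have h2 : ((ex x lu : ℤ) : ZMod m) = ((ex x lv : ℤ) : ZMod m) := Multiplicative.ofAdd.injective h1
  rw [← sub_eq_zero, ← Int.cast_sub, ZMod.intCast_zmod_eq_zero_iff_dvd] at h2
  have h3 := Int.eq_zero_of_abs_lt_dvd h2 (by simp only [m]; push_cast; simp)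
  exact h (by omega)

lemma mk_of_single {X : Type u} [DecidableEq X] (x : X) (l : List (X × Bool))
    (h : ∀ y b, (y, b) ∈ l → y = x) : (mk l : FreeGroup X) = (of x) ^ (ex x l) := by
  induction l with
  | nil => simp [ex, sumw, ← FreeGroup.one_eq_mk]
  | cons a l ih =>
    obtain ⟨y, b⟩ := a
    have hy : y = x := h y b (by simp)
    subst hy
    have ih' := ih (fun z b hz => h z b (by simp [hz]))
    cases b
    · rw [mk_cons_false, ih']
      simp only [ex, sumw]
      rw [zpow_add]
      simp
    · rw [mk_cons_true, ih']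
      simp only [ex, sumw]
      rw [zpow_add]
      simp

lemma sumw_single {X : Type u} [DecidableEq X] {p : ℕ} (x : X) (l : List (X × Bool)) :
    sumw (fun y => if y = x then (1 : ZMod p) else 0) l = (ex x l : ZMod p) := by
  have := sumw_map (Int.castAddHom (ZMod p)) (fun y => if y = x then (1 : ℤ) else 0) l
  simp only [Int.coe_castAddHom] at this
  rw [ex, ← this]
  congr 1
  ext y
  split_ifs <;> simp

lemma sumw_two {X : Type u} [DecidableEq X] {p : ℕ} (x y : X) (hxy : x ≠ y) (t : ZMod p)
    (l : List (X × Bool)) :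
    sumw (fun z => if z = x then (1 : ZMod p) else if z = y then t else 0) l =
      (ex x l : ZMod p) + t * (ex y l : ZMod p) := by
  induction l with
  | nil => simp [sumw, ex]
  | cons a l ih =>
    obtain ⟨z, b⟩ := a
    simp only [ex] at ih ⊢
    simp only [sumw, ih]
    by_cases h1 : z = x
    · subst h1
      cases b <;> simp [hxy] <;> ring
    · by_cases h2 : z = y
      · subst h2
        cases b <;> simp [h1] <;> ring
      · cases b <;> simp [h1, h2]

theorem main (n : ℕ) : ∀ (X : Type u) (lu lv : List (X × Bool)), lu.length + lv.length = n →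
    ¬ IsConj (mk lu : FreeGroup X) (mk lv) → Sep lu lv := by
  classical
  induction n using Nat.strong_induction_on with
  | _ n ih =>
  intro X lu lv hn hc
  by_cases hex : ∃ x, ex x lu ≠ ex x lv
  · obtain ⟨x, hx⟩ := hex
    exact sep_of_ex x lu lv hx
  push Not at hex
  -- the step for a letter in one of the two words
  have hstep : ∀ (p : ℕ) (_ : 1 < p) (x0 : X) (φ : X → ZMod p) (_ : φ x0 = 1)
      (_ : sumw φ lu = 0) (_ : sumw φ lv = 0) (b : Bool) (_ : (x0, b) ∈ lu ++ lv), Sep lu lv := by
    intro p hp x0 φ hφ hu hv b hb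
    rcases List.mem_append.1 hb with h | h
    · refine step hp x0 φ hφ lu lv hu hv b h hc ?_
      intro lu' lv' hl hc'
      exact ih _ (by omega) (X × ZMod p) lu' lv' rfl hc'
    · refine (step hp x0 φ hφ lv lu hv hu b h (fun h' => hc h'.symm) ?_).symm
      intro lu' lv' hl hc'
      exact ih _ (by omega) (X × ZMod p) lu' lv' rfl hc'
  by_cases hA : ∃ x b, (x, b) ∈ lu ++ lv ∧ ex x lu = 0
  · obtain ⟨x, b, hx, h0⟩ := hA
    refine hstep 2 (by norm_num) x (fun y => if y = x then 1 else 0) (by simp) ?_ ?_ b hx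
    · rw [sumw_single, h0]; simp
    · rw [sumw_single, ← hex x, h0]; simp
  push Not at hA
  by_cases hB : ∃ x b y b', (x, b) ∈ lu ++ lv ∧ (y, b') ∈ lu ++ lv ∧ x ≠ y
  · obtain ⟨x, b, y, b', hx, hy, hxy⟩ := hB
    have hy0 := hA y b' hy
    obtain ⟨p, hp1, hp⟩ := Nat.exists_infinite_primes ((ex y lu).natAbs + 2)
    have : Fact p.Prime := ⟨hp⟩
    have hy1 : ((ex y lu : ℤ) : ZMod p) ≠ 0 := by
      intro h
      rw [ZMod.intCast_zmod_eq_zero_iff_dvd] at h
      exact hy0 (Int.eq_zero_of_abs_lt_dvd h (by rw [Int.abs_eq_natAbs]; omega))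
    refine hstep p hp.one_lt x
      (fun z => if z = x then 1 else if z = y then -(ex x lu : ZMod p) / (ex y lu : ZMod p) else 0)
      (by simp) ?_ ?_ b hx
    · rw [sumw_two x y hxy]
      field_simp
      ring
    · rw [sumw_two x y hxy, ← hex x, ← hex y]
      field_simp
      ring
  push Not at hB
  exfalso
  apply hc
  by_cases hS : lu ++ lv = []
  · rw [List.append_eq_nil_iff] at hS
    rw [hS.1, hS.2]
  · obtain ⟨⟨x, b⟩, hx⟩ := List.exists_mem_of_ne_nil _ hS
    have h1 := mk_of_single x lu (fun y b' hy => (hB x b y b' hx (by simp [hy])).symm)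
    have h2 := mk_of_single x lv (fun y b' hy => (hB x b y b' hx (by simp [hy])).symm)
    rw [h1, h2, hex x]

/-- free groups are conjugacy separable -/
theorem free_conj_sep {X : Type u} (a b : FreeGroup X) (h : ¬ IsConj a b) :
    ∃ (Q : Type) (_ : Group Q) (_ : Finite Q) (ψ : FreeGroup X →* Q), ¬ IsConj (ψ a) (ψ b) := by
  classical
  have := main _ X a.toWord b.toWord rfl (by rwa [FreeGroup.mk_toWord, FreeGroup.mk_toWord])
  obtain ⟨Q, i1, i2, ψ, hψ⟩ := this
  rw [FreeGroup.mk_toWord, FreeGroup.mk_toWord] at hψ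
  exact ⟨Q, i1, i2, ψ, hψ⟩

end Pool.Agent.H23CS
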